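import Pool.Agent.H7.TRI.Stmts

/-! # Board tri (MP_fd41b2_co), row DSJ: the rich closed neighbourhoods are pairwise disjoint -/

set_option autoImplicit false
set_option linter.unusedVariables false

open Finset

namespace Pool.TRI

theorem DSJ_caseA (hRCH : RCHStmt) (V : Type) [Fintype V] [DecidableEq V] (G : SimpleGraph V)
    (d m : ℕ) (hH : Hyp G d m) (C : Finset V) (hC : C ∈ RC G d) (C' : Finset V)
    (hC' : C' ∈ RC G d) (hne : C ≠ C') (h1 : SS G C ⊆ C') (h2 : SS G C' ⊆ C) :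
    (SS G C').card < (SS G C).card := by
  obtain ⟨c1, c2, c3, c4, c5, c6, c7, c8⟩ := hRCH V G d m hH C hC
  obtain ⟨c1', c2', c3', -, -, -, -, -⟩ := hRCH V G d m hH C' hC'
  have hδ : 1 ≤ (C \ C').card := by
    rw [Nat.one_le_iff_ne_zero, Ne, card_eq_zero, sdiff_eq_empty_iff_subset]
    intro h
    exact hne (eq_of_subset_of_card_le h (by rw [c1, c1']))
  have hS : ∀ z ∈ SS G C', z ∈ XX G C ∧ df G C z = (C \ C').card := by
    intro z hz
    obtain ⟨hz1, hz2⟩ := mem_SS.1 hz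
    refine ⟨mem_XX.2 ⟨h2 hz, ?_⟩, ?_⟩
    · rw [hz2]
      exact fun h => hne h.symm
    · unfold df
      rw [hz2]
  have hD : ∀ w ∈ C \ C', w ∈ XX G C ∧ (SS G C').card ≤ df G C w := by
    intro w hw
    obtain ⟨hw1, hw2⟩ := mem_sdiff.1 hw
    refine ⟨mem_XX.2 ⟨hw1, fun h => hw2 (h1 (mem_SS.2 ⟨hw1, h⟩))⟩, ?_⟩
    unfold df
    apply card_le_card
    intro z hz
    rw [mem_sdiff]
    refine ⟨h2 hz, fun h => hw2 ?_⟩
    rw [← (mem_SS.1 hz).2]
    exact mem_cn_comm.1 h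
  have hdis : Disjoint (SS G C') (C \ C') := by
    rw [disjoint_left]
    intro z hz hz'
    exact (mem_sdiff.1 hz').2 (mem_SS.1 hz).1
  have hsub : SS G C' ∪ (C \ C') ⊆ XX G C := by
    intro z hz
    rcases mem_union.1 hz with h | h
    · exact (hS z h).1
    · exact (hD z h).1
  have e1 : ∑ w ∈ XX G C \ (SS G C' ∪ (C \ C')), df G C w +
      (∑ w ∈ SS G C', df G C w + ∑ w ∈ C \ C', df G C w) = ∑ w ∈ XX G C, df G C w := by
    rw [← sum_union hdis]
    exact sum_sdiff hsub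
  have e2 : (XX G C \ (SS G C' ∪ (C \ C'))).card ≤
      ∑ w ∈ XX G C \ (SS G C' ∪ (C \ C')), df G C w := by
    rw [card_eq_sum_ones]
    apply sum_le_sum
    intro w hw
    have hw1 := (mem_sdiff.1 hw).1
    exact (c6 w (mem_XX.1 hw1).1).1 hw1
  have e3 : ∑ w ∈ SS G C', df G C w = (SS G C').card * (C \ C').card := by
    rw [sum_const_nat fun z hz => (hS z hz).2]
  have e4 : (C \ C').card * (SS G C').card ≤ ∑ w ∈ C \ C', df G C w := by
    rw [← smul_eq_mul]
    exact card_nsmul_le_sum _ _ _ fun w hw => (hD w hw).2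
  have e5 : (XX G C \ (SS G C' ∪ (C \ C'))).card + ((SS G C').card + (C \ C').card) =
      (XX G C).card := by
    rw [← card_union_of_disjoint hdis]
    exact card_sdiff_add_card_eq_card hsub
  generalize (SS G C').card = s' at *
  generalize (SS G C).card = s at *
  generalize (C \ C').card = δ at *
  obtain ⟨a, rfl⟩ : ∃ a, s' = a + 1 := ⟨s' - 1, by omega⟩
  obtain ⟨b, rfl⟩ : ∃ b, δ = b + 1 := ⟨δ - 1, by omega⟩
  have e6 : (a + 1) * (b + 1) = a * b + a + b + 1 := by ring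
  have e7 : (b + 1) * (a + 1) = a * b + a + b + 1 := by ring
  rw [e6] at e3
  rw [e7] at e4
  have e8 : 0 ≤ a * b := Nat.zero_le _
  omega

theorem DSJ_caseB (hRCH : RCHStmt) (V : Type) [Fintype V] [DecidableEq V] (G : SimpleGraph V)
    (d m : ℕ) (hH : Hyp G d m) (C : Finset V) (hC : C ∈ RC G d) (C' : Finset V)
    (h1 : ∀ z ∈ SS G C, z ∉ C') (h2 : ∀ z ∈ SS G C', z ∉ C) (u : V) (hu : u ∈ C) (hu' : u ∈ C') :
    (SS G C').card + 1 ≤ (SS G C).card := by
  obtain ⟨c1, c2, c3, c4, c5, c6, c7, c8⟩ := hRCH V G d m hH C hC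
  have hX : u ∈ XX G C := mem_XX.2 ⟨hu, fun h => h1 u (mem_SS.2 ⟨hu, h⟩) hu'⟩
  have e1 := c8 u hX
  have hdis : Disjoint (C ∩ cn G u) (SS G C') := by
    rw [disjoint_left]
    intro z hz hz'
    exact h2 z hz' (mem_inter.1 hz).1
  have hsub : (C ∩ cn G u) ∪ SS G C' ⊆ cn G u := by
    intro z hz
    rcases mem_union.1 hz with h | h
    · exact (mem_inter.1 h).2
    · rw [mem_cn_comm, (mem_SS.1 h).2]
      exact hu'
  have e2 := card_le_card hsub
  rw [card_union_of_disjoint hdis, card_cn] at e2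
  have e3 := hH.deg u
  have e4 : (C \ cn G u).card + (C ∩ cn G u).card = C.card := card_sdiff_add_card_inter C (cn G u)
  have e5 : df G C u = (C \ cn G u).card := rfl
  omega

theorem DSJ_thm (hRCH : RCHStmt) : DSJStmt := by
  intro V _ _ G d m hH C hC C' hC' hne
  rw [disjoint_left]
  intro u hu hu'
  have hn : ∀ D ∈ RC G d, (SS G D).Nonempty := by
    intro D hD
    have h := (hRCH V G d m hH D hD).2.2.1
    exact card_pos.1 (by omega)
  -- if a twin of `D` is in `D'` then all twins of `D'` are in `D`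
  have key : ∀ D D' : Finset V, (∃ z ∈ SS G D, z ∈ D') → SS G D' ⊆ D := by
    rintro D D' ⟨z, hz, hz'⟩ y hy
    rw [← (mem_SS.1 hz).2, mem_cn_comm, (mem_SS.1 hy).2]
    exact hz'
  by_cases hA : ∃ z ∈ SS G C, z ∈ C'
  · have h2 := key C C' hA
    obtain ⟨y, hy⟩ := hn C' hC'
    have h1 := key C' C ⟨y, hy, h2 hy⟩
    have e1 := DSJ_caseA hRCH V G d m hH C hC C' hC' hne h1 h2
    have e2 := DSJ_caseA hRCH V G d m hH C' hC' C hC (Ne.symm hne) h2 h1
    omega
  · have h1 : ∀ z ∈ SS G C, z ∉ C' := fun z hz h => hA ⟨z, hz, h⟩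
    have h2 : ∀ z ∈ SS G C', z ∉ C := by
      intro y hy h
      obtain ⟨z, hz⟩ := hn C hC
      exact h1 z hz (key C' C ⟨y, hy, h⟩ hz)
    have e1 := DSJ_caseB hRCH V G d m hH C hC C' h1 h2 u hu hu'
    have e2 := DSJ_caseB hRCH V G d m hH C' hC' C h2 h1 u hu' hu
    omega

end Pool.TRI
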